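import Pool.Graph.R_seed8.H257R2.LJW.Clique
import Pool.Graph.R_seed8.H741R2.LJPoly

/-!
# Throughput scheduling with release dates on `m` machines: definitions and the reduction
-/

set_option autoImplicit false

namespace Pool.Agent.KS6_76.TP

open Pool.Agent.NPC Pool.Agent.H633R2 Pool.Agent.H741R2.LJ Pool.Agent.H257R2.LJW

/-- `S` (the start times) and `M` (the machines) are a schedule on `m` identical parallel machines,
for `n` jobs with release dates `r` and processing times `p`: no job starts before its release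
date, and no two jobs on the same machine overlap. -/
structure IsScheduleM {m n : ℕ} (r p : Fin n → ℕ) (S : Fin n → ℝ) (M : Fin n → Fin m) : Prop where
  /-- release dates -/
  release : ∀ j, (r j : ℝ) ≤ S j
  /-- one job at a time on every machine, without preemption -/
  disjoint : ∀ i j, i ≠ j → M i = M j → S i + p i ≤ S j ∨ S j + p j ≤ S i

/-- The decision version of `P_m | r_j | ∑ U_j`.  An instance is a list of jobs `(r_j, p_j, d_j)`
with `1 ≤ p_j` and a bound `k`; is there a schedule on `m` machines with at most `k` late jobs? -/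
def JobsM (m : ℕ) (I : List (ℕ × ℕ × ℤ) × ℕ) : Prop :=
  (∀ j ∈ I.1, 1 ≤ j.2.1) ∧
    ∃ (S : Fin I.1.length → ℝ) (M : Fin I.1.length → Fin m),
      IsScheduleM (fun j => I.1[j].1) (fun j => I.1[j].2.1) S M ∧
      {j | Late (fun j => I.1[j].2.1) (fun j => I.1[j].2.2) S j}.ncard ≤ I.2

open Classical in
/-- The decision version of `P_m | r_j | ∑ w_j U_j`.  An instance is a list of jobs
`(r_j, p_j, d_j, w_j)` with `1 ≤ p_j`, `1 ≤ w_j` and a bound `k`; is there a schedule on `m` machines
such that the total weight of the late jobs is at most `k`? -/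
def WJobsM (m : ℕ) (I : List (ℕ × ℕ × ℤ × ℕ) × ℕ) : Prop :=
  (∀ j ∈ I.1, 1 ≤ j.2.1 ∧ 1 ≤ j.2.2.2) ∧
    ∃ (S : Fin I.1.length → ℝ) (M : Fin I.1.length → Fin m),
      IsScheduleM (fun j => I.1[j].1) (fun j => I.1[j].2.1) S M ∧
      ∑ j with Late (fun j => I.1[j].2.1) (fun j => I.1[j].2.2.1) S j, I.1[j].2.2.2 ≤ I.2

/-- schedules for a list of keys -/
theorem core {α β : Type} (l : List α) (hl : l.Nodup) (g : α → β) (R P : β → ℕ) (D : β → ℤ)
    (m : ℕ) :
    (∃ (S : Fin (l.map g).length → ℝ) (M : Fin (l.map g).length → Fin (m + 1)),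
      IsScheduleM (fun j => R (l.map g)[j]) (fun j => P (l.map g)[j]) S M ∧
      ∀ j, ¬ Late (fun j => P (l.map g)[j]) (fun j => D (l.map g)[j]) S j) ↔
    ∃ (t : α → ℝ) (M : α → Fin (m + 1)),
      (∀ x ∈ l, (R (g x) : ℝ) ≤ t x ∧ t x + P (g x) ≤ D (g x)) ∧
      ∀ x ∈ l, ∀ y ∈ l, x ≠ y → M x = M y → t x + P (g x) ≤ t y ∨ t y + P (g y) ≤ t x := by
  classical
  have hlen : (l.map g).length = l.length := List.length_map _
  constructor
  · rintro ⟨S, M, hS, hL⟩
    let ix : (x : α) → x ∈ l → Fin (l.map g).length := fun x hx =>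
      ⟨l.idxOf x, by rw [hlen]; exact List.idxOf_lt_length_iff.2 hx⟩
    have hix : ∀ x hx, (l.map g)[ix x hx] = g x := by
      intro x hx
      simp only [ix, Fin.getElem_fin, List.getElem_map, List.getElem_idxOf]
    refine ⟨fun x => if hx : x ∈ l then S (ix x hx) else 0,
      fun x => if hx : x ∈ l then M (ix x hx) else 0, ?_, ?_⟩
    · intro x hx
      simp only [dif_pos hx]
      have h1 := hS.release (ix x hx)
      have h2 := hL (ix x hx)
      simp only [Late, not_lt, hix] at h1 h2
      exact ⟨h1, h2⟩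
    · intro x hx y hy hxy hM
      simp only [dif_pos hx, dif_pos hy] at hM ⊢
      have hne : ix x hx ≠ ix y hy := by
        intro h
        apply hxy
        have h1 := congrArg Fin.val h
        simp only [ix] at h1
        exact (List.idxOf_inj hx).1 h1
      have h1 := hS.disjoint _ _ hne hM
      simp only [hix] at h1
      exact h1
  · rintro ⟨t, M, h1, h2⟩
    have hmem : ∀ j : Fin (l.map g).length, l[(j : ℕ)]'(by rw [← hlen]; exact j.2) ∈ l :=
      fun j => List.getElem_mem _
    refine ⟨fun j => t (l[(j : ℕ)]'(by rw [← hlen]; exact j.2)),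
      fun j => M (l[(j : ℕ)]'(by rw [← hlen]; exact j.2)), ⟨fun j => ?_, fun i j hij hM => ?_⟩,
      fun j => ?_⟩
    · simp only [Fin.getElem_fin, List.getElem_map]
      exact (h1 _ (hmem j)).1
    · simp only [Fin.getElem_fin, List.getElem_map]
      refine h2 _ (hmem i) _ (hmem j) (fun h => hij (Fin.ext ?_)) hM
      exact (hl.getElem_inj_iff).1 h
    · simp only [Late, not_lt, Fin.getElem_fin, List.getElem_map]
      exact (h1 _ (hmem j)).2

theorem jobsM_iff {α : Type} (l : List α) (hl : l.Nodup) (r p d : α → ℕ) (hp : ∀ x, 0 < p x)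
    (m : ℕ) :
    JobsM (m + 1) (l.map (fun x => (r x, p x, (d x : ℤ))), 0) ↔
    ∃ (t : α → ℝ) (M : α → Fin (m + 1)),
      (∀ x ∈ l, (r x : ℝ) ≤ t x ∧ t x + p x ≤ d x) ∧
      ∀ x ∈ l, ∀ y ∈ l, x ≠ y → M x = M y → t x + p x ≤ t y ∨ t y + p y ≤ t x := by
  have h := core l hl (fun x => (r x, p x, (d x : ℤ))) (fun j => j.1) (fun j => j.2.1)
    (fun j => j.2.2) m
  simp only [Int.cast_natCast] at h
  rw [← h]
  unfold JobsM
  constructor
  · rintro ⟨_, S, M, hS, hL⟩
    refine ⟨S, M, hS, fun j hj => ?_⟩
    simp only [nonpos_iff_eq_zero] at hL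
    rw [Set.ncard_eq_zero (Set.toFinite _), Set.eq_empty_iff_forall_notMem] at hL
    exact hL j hj
  · rintro ⟨S, M, hS, hL⟩
    refine ⟨?_, S, M, hS, ?_⟩
    · intro j hj
      rw [List.mem_map] at hj
      obtain ⟨x, _, rfl⟩ := hj
      exact hp x
    · simp only [nonpos_iff_eq_zero]
      rw [Set.ncard_eq_zero (Set.toFinite _), Set.eq_empty_iff_forall_notMem]
      exact fun j hj => hL j hj

theorem wjobsM_iff {α : Type} (l : List α) (hl : l.Nodup) (r p d : α → ℕ) (hp : ∀ x, 0 < p x)
    (m : ℕ) :
    WJobsM (m + 1) (l.map (fun x => (r x, p x, (d x : ℤ), 1)), 0) ↔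
    ∃ (t : α → ℝ) (M : α → Fin (m + 1)),
      (∀ x ∈ l, (r x : ℝ) ≤ t x ∧ t x + p x ≤ d x) ∧
      ∀ x ∈ l, ∀ y ∈ l, x ≠ y → M x = M y → t x + p x ≤ t y ∨ t y + p y ≤ t x := by
  classical
  have h := core l hl (fun x => (r x, p x, (d x : ℤ), 1)) (fun j => j.1) (fun j => j.2.1)
    (fun j => j.2.2.1) m
  simp only [Int.cast_natCast] at h
  rw [← h]
  unfold WJobsM
  constructor
  · rintro ⟨_, S, M, hS, hL⟩
    refine ⟨S, M, hS, fun j hj => ?_⟩
    simp only [nonpos_iff_eq_zero] at hL
    rw [Finset.sum_eq_zero_iff] at hL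
    have h3 := hL j (by simpa using hj)
    simp at h3
  · rintro ⟨S, M, hS, hL⟩
    refine ⟨?_, S, M, hS, ?_⟩
    · intro j hj
      rw [List.mem_map] at hj
      obtain ⟨x, _, rfl⟩ := hj
      exact ⟨hp x, le_rfl⟩
    · simp only [nonpos_iff_eq_zero]
      rw [Finset.sum_eq_zero_iff]
      intro j hj
      exact absurd (by simpa using hj) (hL j)

/-! ## The instances -/

/-- the length of the schedule -/
def hor (φ : List Cl) : ℕ := 20 * (2 * mm φ * φ.length)

/-- the keys: those of one machine, and for each of the other `m` machines one key for every unit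
of time -/
noncomputable def keysM (m : ℕ) (φ : List Cl) : List Ky :=
  keys φ ++ (List.range m).flatMap fun c => (List.range (hor φ)).map fun t => (5 + c, t)

/-- release dates -/
def relM (φ : List Cl) (x : Ky) : ℕ := if x.1 < 5 then rel (mm φ) φ.length x else x.2

/-- processing times -/
def lenM (φ : List Cl) (x : Ky) : ℕ := if x.1 < 5 then len (mm φ) x else 1

/-- due dates -/
def dueM (φ : List Cl) (x : Ky) : ℕ := if x.1 < 5 then due (mm φ) φ.length x else x.2 + 1

/-- the instance for `m + 1` machines -/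
noncomputable def instM (m : ℕ) (φ : List Cl) : List (ℕ × ℕ × ℤ) × ℕ :=
  ((keysM m φ).map (fun x => (relM φ x, lenM φ x, (dueM φ x : ℤ))), 0)

/-- the weighted instance for `m + 1` machines -/
noncomputable def instWM (m : ℕ) (φ : List Cl) : List (ℕ × ℕ × ℤ × ℕ) × ℕ :=
  ((keysM m φ).map (fun x => (relM φ x, lenM φ x, (dueM φ x : ℤ), 1)), 0)

theorem keys_kind {φ : List Cl} {x : Ky} (h : x ∈ keys φ) : x.1 < 5 := by
  rw [mem_keys] at h
  rcases h with h | h | h | h | h <;> omega

theorem mem_keysM {m : ℕ} {φ : List Cl} {x : Ky} : x ∈ keysM m φ ↔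
    x ∈ keys φ ∨ (5 ≤ x.1 ∧ x.1 < 5 + m ∧ x.2 < hor φ) := by
  unfold keysM
  simp only [List.mem_append, List.mem_flatMap, List.mem_map, List.mem_range]
  refine or_congr Iff.rfl ⟨?_, ?_⟩
  · rintro ⟨c, hc, t, ht, rfl⟩
    exact ⟨by simp, by simpa using hc, ht⟩
  · rintro ⟨h1, h2, h3⟩
    exact ⟨x.1 - 5, by omega, x.2, h3, Prod.ext (by simp; omega) rfl⟩

theorem keysM_nodup (m : ℕ) (φ : List Cl) : (keysM m φ).Nodup := by
  unfold keysM
  rw [List.nodup_append']
  refine ⟨keys_nodup φ, ?_, ?_⟩
  · rw [List.nodup_flatMap]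
    refine ⟨fun c _ => ?_, ?_⟩
    · exact List.Nodup.map (fun a b h => by simpa using h) List.nodup_range
    · refine List.Pairwise.imp ?_ List.nodup_range
      intro a b hab x hx hy
      simp only [List.mem_map] at hx hy
      obtain ⟨t, _, rfl⟩ := hx
      obtain ⟨t', _, h⟩ := hy
      simp only [Prod.mk.injEq, Nat.add_left_cancel_iff] at h
      exact hab h.1.symm
  · intro x hx hy
    have h1 := keys_kind hx
    simp only [List.mem_flatMap, List.mem_map] at hy
    obtain ⟨c, _, t, _, rfl⟩ := hy
    simp at h1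

theorem lenM_pos (φ : List Cl) (x : Ky) : 0 < lenM φ x := by
  unfold lenM
  split_ifs
  · exact len_pos _ _
  · exact one_pos

theorem due_le {φ : List Cl} {x : Ky} (h : x ∈ keys φ) : due (mm φ) φ.length x ≤ hor φ := by
  rw [mem_keys] at h
  have hm : 0 < mm φ := by unfold mm; omega
  unfold due hor
  rcases h with ⟨h1, h2⟩ | ⟨h1, h2⟩ | ⟨h1, h2⟩ | ⟨h1, h2, _⟩ | ⟨h1, h2⟩
  · have := s1_lt hm h2
    simp only [h1, if_true]
    omega
  · have := s2_lt hm h2
    simp only [h1, if_true, one_ne_zero, if_false]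
    omega
  · simp only [h1, if_true, if_false, show (2 : ℕ) ≠ 0 by norm_num, show (2 : ℕ) ≠ 1 by norm_num]
    have h3 : 2 * mm φ * x.2 + 2 * mm φ ≤ 2 * mm φ * φ.length := by
      calc 2 * mm φ * x.2 + 2 * mm φ = 2 * mm φ * (x.2 + 1) := by ring
        _ ≤ _ := Nat.mul_le_mul_left _ h2
    omega
  · simp only [h1, if_true, if_false, show (3 : ℕ) ≠ 0 by norm_num, show (3 : ℕ) ≠ 1 by norm_num,
      show (3 : ℕ) ≠ 2 by norm_num]
    omega
  · simp only [h1, if_false, show (4 : ℕ) ≠ 0 by norm_num, show (4 : ℕ) ≠ 1 by norm_num,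
      show (4 : ℕ) ≠ 2 by norm_num, show (4 : ℕ) ≠ 3 by norm_num]
    omega

/-- The jobs of the other machines block these machines completely. -/
theorem feasM_iff (m : ℕ) (φ : List Cl) :
    (∃ (t : Ky → ℝ) (M : Ky → Fin (m + 1)),
      (∀ x ∈ keysM m φ, (relM φ x : ℝ) ≤ t x ∧ t x + lenM φ x ≤ dueM φ x) ∧
      ∀ x ∈ keysM m φ, ∀ y ∈ keysM m φ, x ≠ y → M x = M y →
        t x + lenM φ x ≤ t y ∨ t y + lenM φ y ≤ t x) ↔ SAT3 φ := by
  rw [← feas_keys φ, ← all_iff (keys φ) (keys_nodup φ) (rel (mm φ) φ.length) (len (mm φ))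
    (due (mm φ) φ.length) (len_pos _)]
  constructor
  · rintro ⟨t, M, h1, h2⟩
    have hk : ∀ x ∈ keys φ, relM φ x = rel (mm φ) φ.length x ∧ lenM φ x = len (mm φ) x ∧
        dueM φ x = due (mm φ) φ.length x := by
      intro x hx
      have := keys_kind hx
      simp [relM, lenM, dueM, this]
    -- the blocking jobs start at the beginning of their unit of time
    have hf : ∀ c < m, ∀ τ < hor φ, t (5 + c, τ) = τ := by
      intro c hc τ hτ
      have h3 := h1 (5 + c, τ) (mem_keysM.2 (Or.inr ⟨by simp, by simpa using hc, hτ⟩))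
      simp only [relM, lenM, dueM, show ¬ (5 + c < 5) by omega, if_false, Nat.cast_add,
        Nat.cast_one] at h3
      linarith [h3.1, h3.2]
    have hmf : ∀ c < m, ∀ τ < hor φ, ((5 + c, τ) : Ky) ∈ keysM m φ := fun c hc τ hτ =>
      mem_keysM.2 (Or.inr ⟨by simp, by simpa using hc, hτ⟩)
    have key : ∀ x ∈ keys φ, ∀ y ∈ keys φ, x ≠ y → ¬ (t x < t y + lenM φ y ∧ t y < t x + lenM φ x) := by
      intro x hx y hy hxy ⟨h3, h4⟩
      -- a common time
      set T : ℝ := max (t x) (t y) with hT
      have hx' := h1 x (mem_keysM.2 (Or.inl hx))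
      have hy' := h1 y (mem_keysM.2 (Or.inl hy))
      have hlx : (0 : ℝ) < lenM φ x := by exact_mod_cast lenM_pos φ x
      have hly : (0 : ℝ) < lenM φ y := by exact_mod_cast lenM_pos φ y
      have hT0 : 0 ≤ T := le_trans (le_trans (Nat.cast_nonneg _) hx'.1) (le_max_left _ _)
      have hTx : T < t x + lenM φ x := max_lt (by linarith) h4
      have hTy : T < t y + lenM φ y := max_lt h3 (by linarith)
      have hTH : T < hor φ := by
        have h5 : (dueM φ x : ℝ) ≤ hor φ := by
          rw [(hk x hx).2.2]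
          exact_mod_cast due_le hx
        linarith [hx'.2]
      obtain ⟨τ, hτ⟩ : ∃ τ, τ = ⌊T⌋₊ := ⟨_, rfl⟩
      have hτH : τ < hor φ := by
        rw [hτ]
        exact (Nat.floor_lt hT0).2 hTH
      have hτ1 : (τ : ℝ) ≤ T := by rw [hτ]; exact Nat.floor_le hT0
      have hτ2 : T < τ + 1 := by rw [hτ]; exact Nat.lt_floor_add_one T
      -- `m + 2` jobs at the time `T`
      let J : Fin (m + 2) → Ky := fun i =>
        if (i : ℕ) = 0 then x else if (i : ℕ) = 1 then y else (5 + ((i : ℕ) - 2), τ)
      have hJm : ∀ i, J i ∈ keysM m φ := by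
        intro i
        simp only [J]
        split_ifs with a b
        · exact mem_keysM.2 (Or.inl hx)
        · exact mem_keysM.2 (Or.inl hy)
        · exact hmf _ (by omega) _ hτH
      have hJT : ∀ i, t (J i) ≤ T ∧ T < t (J i) + lenM φ (J i) := by
        intro i
        simp only [J]
        split_ifs with a b
        · exact ⟨le_max_left _ _, hTx⟩
        · exact ⟨le_max_right _ _, hTy⟩
        · rw [hf _ (by omega) _ hτH]
          simp only [lenM, show ¬ (5 + ((i : ℕ) - 2) < 5) by omega, if_false, Nat.cast_one]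
          exact ⟨hτ1, hτ2⟩
      have hJinj : Function.Injective J := by
        intro i j hij
        have kx := keys_kind hx
        have ky := keys_kind hy
        apply Fin.ext
        simp only [J] at hij
        split_ifs at hij
        all_goals first
          | omega
          | exact absurd hij hxy
          | exact absurd hij.symm hxy
          | (have h5 := congrArg Prod.fst hij; simp only at h5; omega)
      have hnM : ¬ Function.Injective fun i => M (J i) := by
        intro h
        have := Fintype.card_le_of_injective _ h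
        simp at this
      rw [Function.not_injective_iff] at hnM
      obtain ⟨i, j, hM, hij⟩ := hnM
      rcases h2 _ (hJm i) _ (hJm j) (fun h => hij (hJinj h)) hM with h5 | h5
      · linarith [(hJT i).2, (hJT j).1]
      · linarith [(hJT j).2, (hJT i).1]
    refine ⟨fun j => t (keys φ)[j], ⟨fun j => ?_, fun i j hij => ?_⟩, fun j => ?_⟩
    · have hm := List.getElem_mem (l := keys φ) j.2
      have h3 := (h1 _ (mem_keysM.2 (Or.inl hm))).1
      rw [(hk _ hm).1] at h3
      exact h3
    · have hmi := List.getElem_mem (l := keys φ) i.2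
      have hmj := List.getElem_mem (l := keys φ) j.2
      have hne : (keys φ)[i] ≠ (keys φ)[j] := by
        intro h
        apply hij
        apply Fin.ext
        exact ((keys_nodup φ).getElem_inj_iff).1 h
      have h3 := key _ hmi _ hmj hne
      rw [not_and_or, not_lt, not_lt] at h3
      have e1 := (hk _ hmi).2.1
      have e2 := (hk _ hmj).2.1
      rcases h3 with h3 | h3
      · right
        rw [e2] at h3
        exact h3
      · left
        rw [e1] at h3
        exact h3
    · have hm := List.getElem_mem (l := keys φ) j.2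
      have h3 := (h1 _ (mem_keysM.2 (Or.inl hm))).2
      rw [(hk _ hm).2.1, (hk _ hm).2.2] at h3
      simp only [Late, not_lt, Int.cast_natCast]
      exact h3
  · intro h
    rw [all_iff (keys φ) (keys_nodup φ) (rel (mm φ) φ.length) (len (mm φ))
      (due (mm φ) φ.length) (len_pos _)] at h
    obtain ⟨t, h1, h2⟩ := h
    refine ⟨fun x => if x.1 < 5 then (t x : ℝ) else x.2, fun x =>
      if x.1 < 5 then 0 else Fin.ofNat (m + 1) (x.1 - 4), ?_, ?_⟩
    · intro x hx
      rcases mem_keysM.1 hx with hx | ⟨a, b, c⟩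
      · have hk := keys_kind hx
        simp only [relM, lenM, dueM, hk, if_true]
        obtain ⟨h3, h4⟩ := h1 x hx
        exact ⟨by exact_mod_cast h3, by exact_mod_cast h4⟩
      · simp only [relM, lenM, dueM, show ¬ x.1 < 5 by omega, if_false]
        exact ⟨le_rfl, by push_cast; exact le_rfl⟩
    · intro x hx y hy hxy hM
      rcases mem_keysM.1 hx with hx | ⟨a, b, c⟩ <;> rcases mem_keysM.1 hy with hy | ⟨a', b', c'⟩
      · have hk := keys_kind hx
        have hk' := keys_kind hy
        simp only [lenM, hk, hk', if_true]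
        rcases h2 x hx y hy hxy with h3 | h3
        · left; exact_mod_cast h3
        · right; exact_mod_cast h3
      · exfalso
        have hk := keys_kind hx
        simp only [hk, if_true, show ¬ y.1 < 5 by omega, if_false] at hM
        have := congrArg Fin.val hM
        simp only [Fin.ofNat, Fin.val_zero] at this
        rw [Nat.mod_eq_of_lt (by omega)] at this
        omega
      · exfalso
        have hk := keys_kind hy
        simp only [hk, if_true, show ¬ x.1 < 5 by omega, if_false] at hM
        have := congrArg Fin.val hM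
        simp only [Fin.ofNat, Fin.val_zero] at this
        rw [Nat.mod_eq_of_lt (by omega)] at this
        omega
      · simp only [show ¬ x.1 < 5 by omega, show ¬ y.1 < 5 by omega, if_false, lenM] at hM ⊢
        have h3 := congrArg Fin.val hM
        simp only [Fin.ofNat] at h3
        rw [Nat.mod_eq_of_lt (by omega), Nat.mod_eq_of_lt (by omega)] at h3
        have h4 : x.2 ≠ y.2 := fun h => hxy (Prod.ext (by omega) h)
        rcases lt_or_gt_of_ne h4 with h5 | h5
        · left; exact_mod_cast h5
        · right; exact_mod_cast h5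

end Pool.Agent.KS6_76.TP
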