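import Pool.Agent.KS6_76.TP.Mach

/-!
# Throughput scheduling with release dates on `m` machines is para-`NP`-hard
-/

set_option autoImplicit false

namespace Pool.Agent.KS6_76.TP

open Pool.Agent.NPC Pool.Agent.H633R2 Pool.Agent.H741R2.LJ Pool.Agent.H257R2.LJW

/-- The restricted instances: all jobs have to be on time (`k = 0`), the processing times are among
`1, 2, 5, 7, 10, 13`, and the release and due dates are between `0` and `20` times the number of
jobs. -/
def Small (I : List (ℕ × ℕ × ℤ) × ℕ) : Prop :=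
  I.2 = 0 ∧ ∀ j ∈ I.1, j.2.1 ∈ ({1, 2, 5, 7, 10, 13} : Finset ℕ) ∧ j.1 ≤ 20 * I.1.length ∧
    0 ≤ j.2.2 ∧ j.2.2 ≤ 20 * I.1.length

/-- The parameter `p_max + k`. -/
def par (I : List (ℕ × ℕ × ℤ) × ℕ) : ℕ := pmax I + I.2

/-- The largest weight. -/
def wmax (I : List (ℕ × ℕ × ℤ × ℕ) × ℕ) : ℕ := I.1.foldr (fun j m => max j.2.2.2 m) 0

/-- The parameter `p_max + w_max + k`. -/
def wpar (I : List (ℕ × ℕ × ℤ × ℕ) × ℕ) : ℕ := wpmax I + wmax I + I.2

theorem foldr_le {α : Type} (l : List α) (f : α → ℕ) (c : ℕ) (h : ∀ j ∈ l, f j ≤ c) :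
    l.foldr (fun j m => max (f j) m) 0 ≤ c := by
  induction l with
  | nil => simp
  | cons a l ih =>
    rw [List.foldr_cons]
    exact max_le (h a (by simp)) (ih fun j hj => h j (by simp [hj]))

theorem lenM_mem (φ : List Cl) (x : Ky) : lenM φ x ∈ ({1, 2, 5, 7, 10, 13} : Finset ℕ) := by
  unfold lenM len
  split_ifs <;> simp

theorem lenM_le (φ : List Cl) (x : Ky) : lenM φ x ≤ 13 := by
  unfold lenM
  split_ifs
  · exact len_le _ _
  · norm_num

theorem hor_le (m : ℕ) (φ : List Cl) : hor φ ≤ 20 * (keysM m φ).length := by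
  unfold hor keysM keys
  simp only [List.length_append, List.length_map, List.length_range]
  omega

theorem rel_le {φ : List Cl} {x : Ky} (h : x ∈ keys φ) : rel (mm φ) φ.length x ≤ hor φ := by
  rw [mem_keys] at h
  unfold rel hor
  rcases h with ⟨h1, h2⟩ | ⟨h1, h2⟩ | ⟨h1, h2⟩ | ⟨h1, h2, _⟩ | ⟨h1, h2⟩
  · simp only [h1, if_true]
    omega
  · simp only [h1, if_true, one_ne_zero, if_false]
    omega
  · simp only [h1, if_true, if_false, show (2 : ℕ) ≠ 0 by norm_num, show (2 : ℕ) ≠ 1 by norm_num]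
    have h3 : 2 * mm φ * x.2 ≤ 2 * mm φ * φ.length := Nat.mul_le_mul_left _ h2.le
    omega
  · simp only [h1, if_true, if_false, show (3 : ℕ) ≠ 0 by norm_num, show (3 : ℕ) ≠ 1 by norm_num,
      show (3 : ℕ) ≠ 2 by norm_num]
    omega
  · simp only [h1, if_false, show (4 : ℕ) ≠ 0 by norm_num, show (4 : ℕ) ≠ 1 by norm_num,
      show (4 : ℕ) ≠ 2 by norm_num, show (4 : ℕ) ≠ 3 by norm_num]
    omega

theorem dates {m : ℕ} {φ : List Cl} {x : Ky} (h : x ∈ keysM m φ) :
    relM φ x ≤ 20 * (keysM m φ).length ∧ dueM φ x ≤ 20 * (keysM m φ).length := by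
  have h0 := hor_le m φ
  rcases mem_keysM.1 h with h | ⟨a, b, c⟩
  · have hk := keys_kind h
    have h1 := rel_le h
    have h2 := due_le h
    simp only [relM, dueM, hk, if_true]
    omega
  · simp only [relM, dueM, show ¬ x.1 < 5 by omega, if_false]
    omega

theorem small_instM (m : ℕ) (φ : List Cl) : Small (instM m φ) := by
  refine ⟨rfl, fun j hj => ?_⟩
  have hl : (instM m φ).1.length = (keysM m φ).length := by simp [instM]
  rw [hl]
  simp only [instM, List.mem_map] at hj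
  obtain ⟨x, hx, rfl⟩ := hj
  obtain ⟨h1, h2⟩ := dates hx
  refine ⟨lenM_mem φ x, h1, Int.natCast_nonneg _, ?_⟩
  show (dueM φ x : ℤ) ≤ _
  exact_mod_cast h2

theorem par_le {I : List (ℕ × ℕ × ℤ) × ℕ} (h : Small I) : par I ≤ 13 := by
  unfold par
  rw [h.1, add_zero]
  refine foldr_le _ _ _ fun j hj => ?_
  have := (h.2 j hj).1
  simp only [Finset.mem_insert, Finset.mem_singleton] at this
  omega

theorem wpar_instWM (m : ℕ) (φ : List Cl) : wpar (instWM m φ) ≤ 14 := by
  have h1 : wpmax (instWM m φ) ≤ 13 := by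
    refine foldr_le _ _ _ fun j hj => ?_
    simp only [instWM, List.mem_map] at hj
    obtain ⟨x, _, rfl⟩ := hj
    exact lenM_le φ x
  have h2 : wmax (instWM m φ) ≤ 1 := by
    refine foldr_le _ _ _ fun j hj => ?_
    simp only [instWM, List.mem_map] at hj
    obtain ⟨x, _, rfl⟩ := hj
    exact le_rfl
  have h3 : (instWM m φ).2 = 0 := rfl
  unfold wpar
  omega

section

attribute [local fun_prop] mm_poly

theorem hor_u : UPoly hor :=
  UPoly.mul (UPoly.const 20) (UPoly.mul (UPoly.mul (UPoly.const 2) mm_u) len_u)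

theorem keysM_poly (m : ℕ) : NPC.Poly (keysM m) := by
  have h1 : NPC.Poly (fun p : List Cl × ℕ => (List.range (hor p.1)).map
      fun t => ((5 + p.2, t) : Ky)) :=
    NPC.Poly.map (F := fun (p : List Cl × ℕ) (t : ℕ) => ((5 + p.2, t) : Ky))
      ((UPoly.comp hor_u (Poly.fst Poly.id)).range)
      (Poly.pair (Poly.add (NPC.Poly.const 5) (Poly.snd (Poly.fst Poly.id))) (Poly.snd Poly.id))
  unfold keysM
  exact Poly.append keys_poly (Poly.flatMap (l := fun _ : List Cl => List.range m)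
    (F := fun φ c => (List.range (hor φ)).map fun t => ((5 + c, t) : Ky)) (NPC.Poly.const _) h1)

theorem mmq : NPC.Poly (fun x : List Cl × Ky => mm x.1) := by fun_prop

theorem lnq : NPC.Poly (fun x : List Cl × Ky => x.1.length) := by fun_prop

theorem kyq : NPC.Poly (fun x : List Cl × Ky => x.2) := Poly.snd Poly.id

theorem decq : NPC.Poly (fun a : List Cl × Ky => decide (a.2.1 < 5)) :=
  Poly.decide_lt (Poly.fst kyq) (NPC.Poly.const 5)

theorem relM_poly : NPC.Poly (fun q : List Cl × Ky => relM q.1 q.2) :=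
  Poly.ite (p := fun a : List Cl × Ky => a.2.1 < 5) decq (rel_poly mmq lnq kyq) (Poly.snd kyq)

theorem lenM_poly : NPC.Poly (fun q : List Cl × Ky => lenM q.1 q.2) :=
  Poly.ite (p := fun a : List Cl × Ky => a.2.1 < 5) decq (lenf_poly mmq kyq) (NPC.Poly.const 1)

theorem dueM_poly : NPC.Poly (fun q : List Cl × Ky => dueM q.1 q.2) :=
  Poly.ite (p := fun a : List Cl × Ky => a.2.1 < 5) decq (due_poly mmq lnq kyq)
    (Poly.add (Poly.snd kyq) (NPC.Poly.const 1))

theorem instM_poly (m : ℕ) : NPC.Poly (instM m) := by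
  unfold instM
  exact Poly.pair (NPC.Poly.map (F := fun φ (x : Ky) => (relM φ x, lenM φ x, (dueM φ x : ℤ)))
    (keysM_poly m) (Poly.pair relM_poly (Poly.pair lenM_poly (Poly.natCast_int dueM_poly))))
    (NPC.Poly.const 0)

theorem instWM_poly (m : ℕ) : NPC.Poly (instWM m) := by
  unfold instWM
  exact Poly.pair (NPC.Poly.map (F := fun φ (x : Ky) => (relM φ x, lenM φ x, (dueM φ x : ℤ), 1))
    (keysM_poly m) (Poly.pair relM_poly (Poly.pair lenM_poly
      (Poly.pair (Poly.natCast_int dueM_poly) (NPC.Poly.const 1))))) (NPC.Poly.const 0)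

end

theorem hard_small (m : ℕ) : HardPr Small (JobsM (m + 1)) :=
  hardI_SAT3.toHardPr.trans (instM_poly m) (fun φ _ => small_instM m φ) fun φ _ => by
    rw [← feasM_iff m φ]
    exact (jobsM_iff (keysM m φ) (keysM_nodup m φ) (relM φ) (lenM φ) (dueM φ) (lenM_pos φ) m).symm

theorem hard_jobsM (m : ℕ) : HardPr (fun I => par I ≤ 13) (JobsM (m + 1)) :=
  (hard_small m).trans Poly.id (fun _ h => par_le h) fun _ _ => Iff.rfl

theorem hard_wjobsM (m : ℕ) : HardPr (fun I => wpar I ≤ 14) (WJobsM (m + 1)) :=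
  hardI_SAT3.toHardPr.trans (instWM_poly m) (fun φ _ => wpar_instWM m φ) fun φ _ => by
    rw [← feasM_iff m φ]
    exact (wjobsM_iff (keysM m φ) (keysM_nodup m φ) (relM φ) (lenM φ) (dueM φ) (lenM_pos φ) m).symm

theorem jobsM_one (I : List (ℕ × ℕ × ℤ) × ℕ) : JobsM 1 I ↔ Jobs I := by
  unfold JobsM Jobs
  refine and_congr Iff.rfl ⟨?_, ?_⟩
  · rintro ⟨S, M, hS, hL⟩
    exact ⟨S, ⟨hS.release, fun i j hij => hS.disjoint i j hij (Subsingleton.elim _ _)⟩, hL⟩
  · rintro ⟨S, hS, hL⟩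
    exact ⟨S, fun _ => 0, ⟨hS.release, fun i j hij _ => hS.disjoint i j hij⟩, hL⟩

theorem wjobsM_one (I : List (ℕ × ℕ × ℤ × ℕ) × ℕ) : WJobsM 1 I ↔ WJobs I := by
  unfold WJobsM WJobs
  refine and_congr Iff.rfl ⟨?_, ?_⟩
  · rintro ⟨S, M, hS, hL⟩
    exact ⟨S, ⟨hS.release, fun i j hij => hS.disjoint i j hij (Subsingleton.elim _ _)⟩, hL⟩
  · rintro ⟨S, hS, hL⟩
    exact ⟨S, fun _ => 0, ⟨hS.release, fun i j hij _ => hS.disjoint i j hij⟩, hL⟩

end Pool.Agent.KS6_76.TP
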